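import Pool.Agent.helper52.ED.Spec

set_option autoImplicit false

open Complex Metric Set Filter Topology MeasureTheory
open Pool.Agent.helper98.ILF Pool.Agent.helper16.Multibrot HY

noncomputable section

namespace ED

theorem CNT (hRGR : RGR_stmt) (hPHP : PHP_stmt) (hGEO : GEO_stmt) (hCOV : HY.COV_stmt) (hHDI : HY.HDI_stmt) :
    CNT_stmt := by
  intro n r M hn hr hM hCL
  obtain ⟨η₀, hη₀, hR⟩ := hRGR n hn r hr
  obtain ⟨η, hη, hη1, hηle⟩ : ∃ η : ℝ, 0 < η ∧ η ≤ 1 ∧ η ≤ η₀ :=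
    ⟨min η₀ 1, lt_min hη₀ one_pos, min_le_right _ _, min_le_left _ _⟩
  obtain ⟨N₂, hN₂⟩ := hCOV (η / 64) (by positivity)
  obtain ⟨N₁, hN₁⟩ : ∃ N₁ : ℕ, 1 + 2 * Real.log 2 / η ≤ (N₁ : ℝ) := exists_nat_ge _
  refine ⟨N₂ * N₁, ?_⟩
  intro c hc hdis V φ ψ b hSG y t hO m A ι hA hι
  by_contra hcon
  have hlt : N₂ * 2 ^ m * N₁ < ι.card := by
    have e : N₂ * 2 ^ m * N₁ = N₂ * N₁ * 2 ^ m := by ring
    rw [e]
    exact not_le.mp hcon
  obtain ⟨ι', hsub, hcard, hclose⟩ := hN₂ m ι y N₁ (fun i hi => ⟨(hι i hi).2.1, (hι i hi).2.2.1⟩) hlt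
  obtain ⟨hpos, hhd⟩ := hPHP n c V φ ψ b M y t hSG hM hO
  have hgrow : ∀ i ∈ ι', ∀ k ∈ ι', i < k → (1 + η) * PhV n c φ y i ≤ PhV n c φ y k := by
    intro i hi k hk hik
    have hi' := hι i (hsub hi)
    have hk' := hι k (hsub hk)
    have hOk : Orb n c φ M y k :=
      ⟨fun l hl => hO.mem l (hl.trans hk'.1), fun l hl => hO.stp l (lt_of_lt_of_le hl hk'.1),
        fun l hl => hO.far l (lt_of_lt_of_le hl hk'.1)⟩
    obtain ⟨H, hH, hH0, hrel, -⟩ := hCL c hc hdis V φ ψ b hSG y k hOk i hik.le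
    have hval := hhd i k hik.le hk'.1 H hH hH0 hrel
    have hPi := (hpos i hi'.1).1
    have hPk := (hpos k hk'.1).1
    have h32 : 1 / 32 ≤ hd H 0 := by
      rw [hval, div_le_div_iff₀ (by norm_num) (by positivity)]
      nlinarith [hi'.2.2.2.1, hk'.2.2.2.2]
    obtain ⟨hU, h0, h16, -⟩ := hHDI.2.2 (y k) (hO.mem k hk'.1)
    have hcl := hclose i hi k hk
    have h := hR c hc hdis V φ hSG.rm H (fun x => S (y k) (x / 16)) (fun x => x) (k - i) (by omega) hH hU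
      differentiableOn_id (fun x hx => hx) rfl hrel (by
        show ‖T (H 0) (S (y k) (0 / 16))‖ ≤ η₀ * hd H 0
        rw [hH0, h0]
        calc ‖T (y i) (y k)‖ ≤ η / 64 := hcl
          _ ≤ η₀ * (1 / 32) := by nlinarith
          _ ≤ η₀ * hd H 0 := by gcongr)
    have h16' : (1 + η₀) * hd H 0 ≤ 1 / 16 := by
      calc (1 + η₀) * hd H 0 ≤ hd (fun x => S (y k) (x / 16)) 0 := h
        _ = 1 / 16 := h16
    have hle : (1 + η) * hd H 0 ≤ 1 / 16 := by
      refine le_trans ?_ h16'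
      have : 0 ≤ hd H 0 := by linarith
      nlinarith
    rw [hval] at hle
    have e : (1 + η) * (PhV n c φ y i / (16 * PhV n c φ y k)) = ((1 + η) * PhV n c φ y i) / (16 * PhV n c φ y k) := by
      ring
    rw [e, div_le_div_iff₀ (by positivity) (by norm_num)] at hle
    linarith
  have hG := hGEO η A (2 * A) ι' (PhV n c φ y) hη hη1 hA (by linarith)
    (fun i hi => ⟨(hι i (hsub hi)).2.2.2.1, (hι i (hsub hi)).2.2.2.2⟩) hgrow
  have e2 : 2 * A / A = 2 := by field_simp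
  rw [e2] at hG
  have h3 : (ι'.card : ℝ) ≤ N₁ := hG.trans hN₁
  have h4 : ι'.card ≤ N₁ := by exact_mod_cast h3
  omega

end ED
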