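import Pool.Agent.helper52.ED.SpecP

set_option autoImplicit false

open Complex Metric Set Filter Topology MeasureTheory
open Pool.Agent.helper98.ILF Pool.Agent.helper16.Multibrot HY
open DH (co Tow yv jj FA REL)

noncomputable section

namespace ED

theorem CTG (hCTK : CTK_stmt) (hTLO : TLO_stmt) (hORB : ORB_stmt) (hPHP : PHP_stmt) : CTG_stmt := by
  intro n r M hn hr hM hCL
  obtain ⟨C₁, hC₁, h1⟩ := hCTK n r M hn hr hM hCL
  obtain ⟨C₂, e, hC₂, he, h2⟩ := hTLO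
  obtain ⟨C₃, h31, h32⟩ : ∃ C₃ : ℝ, 1 ≤ C₃ ∧ C₂ ≤ C₃ := ⟨max C₂ 1, le_max_right _ _, le_max_left _ _⟩
  have hl3 : 0 ≤ Real.log C₃ := Real.log_nonneg h31
  refine ⟨C₁ * (1 + Real.log C₃ + e), by positivity, ?_⟩
  intro c hc hdis Φ b k p t hFA g hg hg1
  obtain ⟨hSG, hO⟩ := hORB n c Φ b M k p t hFA
  obtain ⟨hpos, -⟩ := hPHP n c (VV n c k) (Φ k) (Φ (k + 1)) (b k) M (yv Φ n c k p) t hSG hM hO
  have hPt := (hpos t le_rfl).1
  have hge : 0 < g ^ e := pow_pos hg e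
  have hge1 : g ^ e ≤ 1 := pow_le_one₀ hg.le hg1
  have hC3 : 0 < C₃ := by linarith
  have hκ : 0 < g ^ e / C₃ := div_pos hge hC3
  have hκ1 : g ^ e / C₃ ≤ 1 := by
    rw [div_le_one hC3]
    linarith
  have key := h1 c hc hdis (VV n c k) (Φ k) (Φ (k + 1)) (b k) hSG (yv Φ n c k p) t hO g (g ^ e / C₃)
    ((Finset.range t).filter (fun i => g ≤ 1 - ‖yv Φ n c (k + t - i) p i‖)) hg hg1 hκ hκ1 (by
    intro i hi
    rw [Finset.mem_filter, Finset.mem_range] at hi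
    obtain ⟨hit, hgi⟩ := hi
    obtain ⟨ha, hb⟩ := h2 n c Φ b M k p t hM hFA i hit
    have hPi := (hpos i hit.le).1
    refine ⟨hit, by linarith, ?_⟩
    rw [div_mul_eq_mul_div, div_le_iff₀ hC3]
    calc g ^ e * PhV n c (Φ k) (yv Φ n c k p) t ≤ (1 - ‖yv Φ n c (k + t - i) p i‖) ^ e * PhV n c (Φ k) (yv Φ n c k p) t := by
          gcongr
      _ ≤ C₂ * PhV n c (Φ k) (yv Φ n c k p) i := ha
      _ ≤ C₃ * PhV n c (Φ k) (yv Φ n c k p) i := by gcongr
      _ = PhV n c (Φ k) (yv Φ n c k p) i * C₃ := by ring)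
  refine key.trans ?_
  have hlg : 0 ≤ Real.log (1 / g) := Real.log_nonneg (by rw [one_div]; exact (one_le_inv₀ hg).mpr hg1)
  have elog : Real.log (1 / (g ^ e / C₃)) = Real.log C₃ + e * Real.log (1 / g) := by
    have : 1 / (g ^ e / C₃) = C₃ * (1 / g) ^ e := by
      rw [one_div_div, one_div, inv_pow, div_eq_mul_inv]
    rw [this, Real.log_mul hC3.ne' (by positivity), Real.log_pow]
  rw [elog]
  have hX : 1 + (Real.log C₃ + e * Real.log (1 / g)) ≤ (1 + Real.log C₃ + e) * (1 + Real.log (1 / g)) := by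
    have h5 : (0 : ℝ) ≤ e := Nat.cast_nonneg e
    nlinarith [mul_nonneg hl3 hlg]
  calc C₁ / g * (1 + (Real.log C₃ + e * Real.log (1 / g))) ≤ C₁ / g * ((1 + Real.log C₃ + e) * (1 + Real.log (1 / g))) := by
        gcongr
    _ = C₁ * (1 + Real.log C₃ + e) / g * (1 + Real.log (1 / g)) := by ring

end ED
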